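import Pool.Agent.NTW.StmtsD

/-! # NTW squad (MP_e54c4c_gt), row BPW (helper75): a simultaneously biproximal element -/

set_option autoImplicit false

open Matrix Filter Topology

namespace Pool.Agent.NTW.H75

open Pool.Agent.PFS Pool.Agent.PFJ Pool.Agent.NTS

theorem ind2_symm {n : ℕ} {x y : V n} (h : Ind2 x y) : Ind2 y x := by
  intro a b hab
  rw [add_comm] at hab
  exact (h b a hab).symm

theorem ind2_ne {n : ℕ} {x y : V n} (h : Ind2 x y) : x ≠ 0 := by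
  intro h0
  have := (h 1 0 (by rw [h0, smul_zero, zero_smul, add_zero])).1
  exact one_ne_zero this

theorem ind2_of_li {n K : ℕ} {w : Fin K → V n} (h : LinearIndependent ℝ w) {i j : Fin K}
    (hij : i ≠ j) : Ind2 (w i) (w j) := by
  have hinj : Function.Injective ![i, j] := by
    intro a b hab
    fin_cases a <;> fin_cases b
    · rfl
    · exact absurd hab hij
    · exact absurd hab.symm hij
    · rfl
  have h2 := h.comp ![i, j] hinj
  have he : w ∘ ![i, j] = ![w i, w j] := by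
    funext a
    fin_cases a <;> rfl
  rw [he] at h2
  exact fun a b hab => LinearIndependent.pair_iff.1 h2 a b hab

/-- **Row BPW.** -/
theorem bpw (fcs : FcsStmt) (tbx : TbxStmt) (bxt : BxtStmt) (exr : ExrStmt) (eiw : EiwStmt)
    (dcp : DcpStmt) (chw : ChwStmt) : BpwStmt := by
  classical
  intro n C Γ K c τ D w hw hz
  have hCC : CC C Γ := D.toCC
  have hLfp : ∀ (u : Fin K → V n) (i : Fin K), τ i ≠ i → Lf C τ u i = Fs C (u i) (u (τ i)) := by
    intro u i hi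
    unfold Lf
    rw [if_neg hi]
  have hLfs : ∀ (u : Fin K → V n) (i : Fin K), τ i = i → Lf C τ u i = Submodule.span ℝ {u i} := by
    intro u i hi
    unfold Lf
    rw [if_pos hi]
  -- facts for any member of the family
  have hcl : ∀ u : Fin K → V n, TT C Γ c u → ∀ i, u i ∈ closure C := fun u hu i =>
    ((eiw n C Γ K c τ D u hu).2.2.1 i).2.1
  have hn0 : ∀ u : Fin K → V n, TT C Γ c u → ∀ i, u i ≠ 0 := fun u hu i =>
    ((eiw n C Γ K c τ D u hu).2.2.1 i).2.2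
  have hind : ∀ u : Fin K → V n, TT C Γ c u → ∀ i j, i ≠ j → Ind2 (u i) (u j) :=
    fun u hu i j hij => ind2_of_li (H60.lin n C hCC.toPCone (Fin K) u hu.pes.1) hij
  have hdim : ∀ u : Fin K → V n, TT C Γ c u → ∀ i, τ i ≠ i →
      3 ≤ Module.finrank ℝ (Fs C (u i) (u (τ i))) := by
    intro u hu i hi
    rw [D.dim u hu i (τ i) (Ne.symm hi)]
    exact D.pair i hi
  have hstr : ∀ u : Fin K → V n, TT C Γ c u → ∀ i, τ i ≠ i →
      ∀ x ∈ Lf C τ u i, ∀ y ∈ Lf C τ u i, x ∈ closure C → y ∈ closure C → Ind2 x y →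
        Unt C (Lf C τ u i) (x + y) := by
    intro u hu i hi
    rw [hLfp u i hi]
    exact bxt n C Γ hCC K D.three D.maxc u hu.pes i (τ i) (Ne.symm hi) _
      ((tbx n C Γ K c τ D u hu).1 i (τ i) (Ne.symm hi)) (hdim u hu i hi)
  have hnun : ∀ u : Fin K → V n, TT C Γ c u → ∀ i, τ i ≠ i →
      ¬ Unt C (Lf C τ u i) (u i) ∧ ¬ Unt C (Lf C τ u i) (u (τ i)) := by
    intro u hu i hi
    rw [hLfp u i hi]
    obtain ⟨h1, h2, -, -⟩ := exr n C Γ hCC K D.three D.maxc u hu.pes i (τ i) (Ne.symm hi)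
      ((tbx n C Γ K c τ D u hu).1 i (τ i) (Ne.symm hi)) (hdim u hu i hi)
    exact ⟨h1, h2⟩
  have hmem : ∀ u : Fin K → V n, TT C Γ c u → ∀ i, u i ∈ Lf C τ u i := fun u hu =>
    (dcp n C Γ K c τ D u hu).1
  have hLτ : ∀ u : Fin K → V n, TT C Γ c u → ∀ i, Lf C τ u (τ i) = Lf C τ u i := fun u hu =>
    (dcp n C Γ K c τ D u hu).2.1
  -- the coefficients
  obtain ⟨r, hr⟩ : ∃ r : ℕ → Fin K → ℝ, r = fun (m : ℕ) i =>
      if i < τ i then Real.exp (m : ℝ) else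
        if τ i < i then (Real.exp (m : ℝ))⁻¹ else 1 := ⟨_, rfl⟩
  have hrpos : ∀ m i, 0 < r m i := by
    intro m i
    rw [hr]
    dsimp only
    split_ifs
    · exact Real.exp_pos _
    · exact inv_pos.2 (Real.exp_pos _)
    · exact one_pos
  have hr0 : ∀ m i, i < τ i → r m i = Real.exp (m : ℝ) := by
    intro m i hi
    rw [hr]
    dsimp only
    rw [if_pos hi]
  have hr1 : ∀ m i, i < τ i → r m (τ i) = (Real.exp (m : ℝ))⁻¹ := by
    intro m i hi
    rw [hr]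
    dsimp only
    rw [D.inv i, if_neg (not_lt.2 hi.le), if_pos hi]
  obtain ⟨φ, g, s, v, hφ, hg, hs, hv, hlim, himg⟩ := hz r hrpos
  have he : Tendsto (fun m => Real.exp (φ m : ℝ)) atTop atTop :=
    Real.tendsto_exp_atTop.comp (tendsto_natCast_atTop_atTop.comp hφ.tendsto_atTop)
  -- every pair
  have hpair : ∀ i, i < τ i → ∀ᶠ m0 in atTop, ∀ᶠ m in atTop,
      ∃ (y0 y1 : V n) (lam mu : ℝ), y0 ∈ Lf C τ w i ∧ y1 ∈ Lf C τ w i ∧
      y0 ∈ closure C ∧ y1 ∈ closure C ∧ Ind2 y0 y1 ∧ 0 < lam ∧ lam < mu ∧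
      act ((g m0)⁻¹ * g m) y0 = lam • y0 ∧ act ((g m0)⁻¹ * g m) y1 = mu • y1 := by
    intro i hi
    have hne : τ i ≠ i := ne_of_gt hi
    have hsum : w i + w (τ i) ∈ closure C := hCC.toPCone.cl_add (hcl w hw i) (hcl w hw (τ i))
    have hm1 : w (τ i) ∈ Lf C τ w i := by rw [← hLτ w hw i]; exact hmem w hw (τ i)
    have hM1 : v (τ i) ∈ Lf C τ v i := by rw [← hLτ v hv i]; exact hmem v hv (τ i)
    refine H82.bpbF n C Γ hCC (Lf C τ w i) (Lf C τ v i) (w i) (w (τ i)) (v i) (v (τ i)) g s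
      (fun m => Real.exp (φ m : ℝ)) (hstr w hw i hne) (hstr v hv i hne) ?_ ?_
      (hmem w hw i) hm1 (hcl w hw i) (hcl w hw (τ i)) (hind w hw i (τ i) hne.symm)
      (hnun w hw i hne).1 (hnun w hw i hne).2
      (hmem v hv i) hM1 (hcl v hv i) (hcl v hv (τ i)) (hind v hv i (τ i) hne.symm)
      (hnun v hv i hne).1 (hnun v hv i hne).2
      hg hs (fun m => Real.exp_pos _) he (fun m => himg m i) ?_ ?_
    · rw [hLfp w i hne]
      rfl
    · rw [hLfp w i hne]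
      exact (fcs n C hCC.toPCone _ hsum).2.2.1
    · refine (hlim i).congr fun m => ?_
      rw [hr0 (φ m) i hi]
    · refine (hlim (τ i)).congr fun m => ?_
      rw [hr1 (φ m) i hi]
  have hall : ∀ᶠ m0 in atTop, ∀ i, i < τ i → ∀ᶠ m in atTop,
      ∃ (y0 y1 : V n) (lam mu : ℝ), y0 ∈ Lf C τ w i ∧ y1 ∈ Lf C τ w i ∧
      y0 ∈ closure C ∧ y1 ∈ closure C ∧ Ind2 y0 y1 ∧ 0 < lam ∧ lam < mu ∧
      act ((g m0)⁻¹ * g m) y0 = lam • y0 ∧ act ((g m0)⁻¹ * g m) y1 = mu • y1 := by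
    rw [eventually_all]
    intro i
    by_cases hi : i < τ i
    · filter_upwards [hpair i hi] with m0 hm0 _
      exact hm0
    · exact Eventually.of_forall fun m0 h' => absurd h' hi
  obtain ⟨m0, hm0⟩ := hall.exists
  have hall2 : ∀ᶠ m in atTop, ∀ i, i < τ i →
      ∃ (y0 y1 : V n) (lam mu : ℝ), y0 ∈ Lf C τ w i ∧ y1 ∈ Lf C τ w i ∧
      y0 ∈ closure C ∧ y1 ∈ closure C ∧ Ind2 y0 y1 ∧ 0 < lam ∧ lam < mu ∧
      act ((g m0)⁻¹ * g m) y0 = lam • y0 ∧ act ((g m0)⁻¹ * g m) y1 = mu • y1 := by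
    rw [eventually_all]
    intro i
    by_cases hi : i < τ i
    · filter_upwards [hm0 i hi] with m hm _
      exact hm
    · exact Eventually.of_forall fun m h' => absurd h' hi
  obtain ⟨m, hm⟩ := hall2.exists
  obtain ⟨σ, hσ⟩ : ∃ σ : GL (Fin n) ℝ, σ = (g m0)⁻¹ * g m := ⟨_, rfl⟩
  rw [← hσ] at hm
  have hσΓ : σ ∈ Γ := by rw [hσ]; exact Γ.mul_mem (Γ.inv_mem (hg m0)) (hg m)
  have hσact : ∀ y : V n, act (g m0) (act σ y) = act (g m) y := by
    intro y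
    rw [← CC.act_mul, hσ]
    congr 2
    group
  have hmapL : ∀ i, ∀ y ∈ Lf C τ w i, act σ y ∈ Lf C τ w i := by
    intro i y hy
    have h1 : act (g m) y ∈ Lf C τ v i := by
      rw [← himg m i]
      exact mem_img.2 ⟨y, hy, rfl⟩
    rw [← himg m0 i] at h1
    obtain ⟨z, hz, hze⟩ := mem_img.1 h1
    rw [← hσact y] at hze
    rwa [← CC.act_injective (g m0) hze]
  -- single vertices
  have hsing : ∀ i, ∃ κ : ℝ, τ i = i → 0 < κ ∧ act σ (w i) = κ • w i := by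
    intro i
    by_cases hi : τ i = i
    · have hne : act σ (w i) ≠ 0 := by
        intro h
        apply hn0 w hw i
        apply CC.act_injective σ
        rw [h, CC.act_zero]
      have hcl' : act σ (w i) ∈ closure C := hCC.act_cl hσΓ (hcl w hw i)
      have h1 : act σ (w i) ∈ Lf C τ w i := hmapL _ _ (hmem w hw i)
      rw [hLfs w i hi] at h1
      obtain ⟨κ, hκ⟩ := Submodule.mem_span_singleton.1 h1
      refine ⟨κ, fun _ => ⟨?_, hκ.symm⟩⟩
      rcases lt_trichotomy κ 0 with hc | hc | hc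
      · exfalso
        apply hne
        apply hCC.salient _ hcl'
        rw [← hκ, ← neg_smul]
        exact hCC.cl_smul (hcl w hw i) (by linarith)
      · exfalso
        apply hne
        rw [← hκ, hc, zero_smul]
      · exact hc
    · exact ⟨1, fun h => absurd h hi⟩
  choose κ hκ using hsing
  have hex : ∀ i, ∃ (y0 y1 : V n) (lam mu : ℝ), i < τ i → y0 ∈ Lf C τ w i ∧ y1 ∈ Lf C τ w i ∧
      y0 ∈ closure C ∧ y1 ∈ closure C ∧ Ind2 y0 y1 ∧ 0 < lam ∧ lam < mu ∧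
      act σ y0 = lam • y0 ∧ act σ y1 = mu • y1 := by
    intro i
    by_cases hi : i < τ i
    · obtain ⟨y0, y1, lam, mu, h⟩ := hm i hi
      exact ⟨y0, y1, lam, mu, fun _ => h⟩
    · exact ⟨0, 0, 0, 0, fun h => absurd h hi⟩
  choose y0 y1 lam mu hy using hex
  have hnu : ∀ i, i < τ i → ¬ Unt C (Lf C τ w i) (y0 i) ∧ ¬ Unt C (Lf C τ w i) (y1 i) := by
    intro i hi
    obtain ⟨a1, a2, a3, a4, a5, a6, a7, a8, a9⟩ := hy i hi
    obtain ⟨-, b1, b2⟩ := H76e.ei2 n C Γ hCC (Lf C τ w i) (hstr w hw i (ne_of_gt hi)) σ hσΓ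
      (y0 i) (y1 i) (lam i) (mu i) a1 a2 a3 a4 a5 a6 a7 a8 a9
    exact ⟨b1, b2⟩
  obtain ⟨w', hw'⟩ : ∃ w' : Fin K → V n, w' = fun i =>
      if i < τ i then y0 i else if τ i < i then y1 (τ i) else w i := ⟨_, rfl⟩
  obtain ⟨nu, hnudef⟩ : ∃ nu : Fin K → ℝ, nu = fun i =>
      if i < τ i then lam i else if τ i < i then mu (τ i) else κ i := ⟨_, rfl⟩
  have hw'0 : ∀ i, i < τ i → w' i = y0 i ∧ nu i = lam i := by
    intro i hi
    rw [hw', hnudef]
    dsimp only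
    rw [if_pos hi, if_pos hi]
    exact ⟨rfl, rfl⟩
  have hw'1 : ∀ i, τ i < i → w' i = y1 (τ i) ∧ nu i = mu (τ i) := by
    intro i hi
    rw [hw', hnudef]
    dsimp only
    rw [if_neg (not_lt.2 hi.le), if_pos hi, if_neg (not_lt.2 hi.le), if_pos hi]
    exact ⟨rfl, rfl⟩
  have hw's : ∀ i, τ i = i → w' i = w i ∧ nu i = κ i := by
    intro i hi
    have h1 : ¬ i < τ i := by rw [hi]; exact lt_irrefl i
    have h2 : ¬ τ i < i := by rw [hi]; exact lt_irrefl i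
    rw [hw', hnudef]
    dsimp only
    rw [if_neg h1, if_neg h2, if_neg h1, if_neg h2]
    exact ⟨rfl, rfl⟩
  -- the case `τ i < i` is the case `j < τ j` for `j = τ i`
  have hback : ∀ i, τ i < i → τ i < τ (τ i) := by
    intro i hi
    rw [D.inv i]
    exact hi
  have hA : ∀ i, w' i ∈ Lf C τ w i ∧ w' i ∈ closure C ∧ w' i ≠ 0 ∧ 0 < nu i ∧
      act σ (w' i) = nu i • w' i := by
    intro i
    rcases lt_trichotomy i (τ i) with hi | hi | hi
    · obtain ⟨a1, a2, a3, a4, a5, a6, a7, a8, a9⟩ := hy i hi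
      rw [(hw'0 i hi).1, (hw'0 i hi).2]
      exact ⟨a1, a3, ind2_ne a5, a6, a8⟩
    · rw [(hw's i hi.symm).1, (hw's i hi.symm).2]
      exact ⟨hmem w hw i, hcl w hw i, hn0 w hw i, (hκ i hi.symm).1, (hκ i hi.symm).2⟩
    · obtain ⟨a1, a2, a3, a4, a5, a6, a7, a8, a9⟩ := hy (τ i) (hback i hi)
      rw [(hw'1 i hi).1, (hw'1 i hi).2]
      refine ⟨?_, a4, ind2_ne (ind2_symm a5), a6.trans a7, a9⟩
      rw [← hLτ w hw i]
      exact a2
  have hB : ∀ i, τ i ≠ i → Ind2 (w' i) (w' (τ i)) ∧ ¬ Unt C (Lf C τ w i) (w' i) ∧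
      nu i ≠ nu (τ i) := by
    intro i hne
    rcases lt_trichotomy i (τ i) with hi | hi | hi
    · obtain ⟨a1, a2, a3, a4, a5, a6, a7, a8, a9⟩ := hy i hi
      have h1 : τ (τ i) < τ i := by rw [D.inv i]; exact hi
      rw [(hw'0 i hi).1, (hw'0 i hi).2, (hw'1 (τ i) h1).1, (hw'1 (τ i) h1).2, D.inv i]
      exact ⟨a5, (hnu i hi).1, ne_of_lt a7⟩
    · exact absurd hi.symm hne
    · obtain ⟨a1, a2, a3, a4, a5, a6, a7, a8, a9⟩ := hy (τ i) (hback i hi)
      rw [(hw'1 i hi).1, (hw'1 i hi).2, (hw'0 (τ i) (hback i hi)).1, (hw'0 (τ i) (hback i hi)).2]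
      refine ⟨ind2_symm a5, ?_, ne_of_gt a7⟩
      rw [← hLτ w hw i]
      exact (hnu (τ i) (hback i hi)).2
  obtain ⟨hT, hL, -⟩ := chw n C Γ K c τ D w hw w' (fun i => ⟨(hA i).1, (hA i).2.1, (hA i).2.2.1⟩)
    (fun i hi => ⟨(hB i hi).1, (hB i hi).2.1⟩)
  exact ⟨w', σ, nu, hT, hL, hσΓ, fun i => (hA i).2.2.2, fun i hi => (hB i hi).2.2⟩

end Pool.Agent.NTW.H75
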