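import Pool.Agent.NTW.StmtsD

/-! # NTW squad (MP_e54c4c_gt), row STW (helper75): zooming with the stabiliser of the box -/

set_option autoImplicit false

open Matrix Filter Topology

namespace Pool.Agent.NTW.H75

open Pool.Agent.PFS Pool.Agent.PFJ Pool.Agent.NTS

theorem img_inv {n : ℕ} {g : GL (Fin n) ℝ} {L : Submodule ℝ (V n)} (h : img g L = L) :
    img g⁻¹ L = L := by
  ext x
  constructor
  · intro hx
    obtain ⟨y, hy, hyx⟩ := mem_img.1 hx
    rw [← h] at hy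
    obtain ⟨z, hz, hzy⟩ := mem_img.1 hy
    rw [← hzy, CC.act_inv_act] at hyx
    rwa [← hyx]
  · intro hx
    refine mem_img.2 ⟨act g x, ?_, CC.act_inv_act g x⟩
    rw [← h]
    exact mem_img.2 ⟨x, hx, rfl⟩

theorem rel_symm {n K : ℕ} {C : Set (V n)} {Γ : Subgroup (GL (Fin n) ℝ)} (h : CC C Γ)
    {τ : Fin K → Fin K} {w : Fin K → V n} {t t' : Fin K → ℝ} (hr : Rel C Γ τ w t t') :
    Rel C Γ τ w t' t := by
  obtain ⟨γ, hγ, s, hs, him, h1, h2⟩ := hr
  have hs' : 0 < s⁻¹ := inv_pos.2 hs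
  have hcancel : ∀ x : V n, s⁻¹ • act γ⁻¹ (s • act γ x) = x := by
    intro x
    rw [CC.act_smul, CC.act_inv_act, smul_smul, inv_mul_cancel₀ hs.ne', one_smul]
  refine ⟨γ⁻¹, Γ.inv_mem hγ, s⁻¹, hs', img_inv him, ?_, ?_⟩
  · have h3 := (h.sact_cl_iff (Γ.inv_mem hγ) hs').2 h2
    rw [CC.act_sub, smul_sub, hcancel, CC.act_smul, smul_comm] at h3
    exact h3
  · have h3 := (h.sact_cl_iff (Γ.inv_mem hγ) hs').2 h1
    rw [CC.act_sub, smul_sub, CC.act_smul γ⁻¹ 4, smul_comm, hcancel] at h3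
    exact h3

/-- a sequence along which a relation fails, if it fails eventually for every first entry -/
theorem bad_seq {P : ℕ → ℕ → Prop} (h : ∀ a, ∀ᶠ b in atTop, P a b) :
    ∃ ψ : ℕ → ℕ, ∀ a b, a < b → P (ψ a) (ψ b) := by
  have h1 : ∀ a, ∃ N : ℕ, ∀ b, N ≤ b → P a b := fun a => eventually_atTop.1 (h a)
  choose F hF using h1
  obtain ⟨G, hG⟩ : ∃ G : ℕ → ℕ, G = fun m => (Finset.range (m + 1)).sup F + (m + 1) := ⟨_, rfl⟩
  have hGF : ∀ a m, a ≤ m → F a ≤ G m := by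
    intro a m ham
    rw [hG]
    dsimp only
    have h2 : F a ≤ (Finset.range (m + 1)).sup F :=
      Finset.le_sup (Finset.mem_range.2 (Nat.lt_succ_of_le ham))
    omega
  have hGm : ∀ m, m < G m := by
    intro m
    rw [hG]
    dsimp only
    omega
  obtain ⟨ψ, hψ⟩ : ∃ ψ : ℕ → ℕ, ∀ a, ψ (a + 1) = G (ψ a) :=
    ⟨fun a => Nat.rec 0 (fun _ x => G x) a, fun a => rfl⟩
  have hmono : StrictMono ψ := strictMono_nat_of_lt_succ fun a => by
    rw [hψ a]
    exact hGm _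
  refine ⟨ψ, fun a b hab => ?_⟩
  obtain ⟨b', rfl⟩ : ∃ b', b = b' + 1 := ⟨b - 1, by omega⟩
  apply hF
  rw [hψ b']
  exact hGF _ _ (hmono.monotone (Nat.lt_succ_iff.1 hab))

/-- **Row STW.** -/
theorem stw (ret : RetStmt) : StwStmt := by
  intro n C Γ K c τ D hN w hw t
  have hCC : CC C Γ := D.toCC
  obtain ⟨N, hret⟩ := ret n C Γ K c τ D hN
  have hxC : ∀ u : Fin K → ℝ, xt w u ∈ C := fun u => hw.pes.1.pos _ fun i => Real.exp_pos _
  have hfreq : ∃ m0, ∃ᶠ m in atTop, Rel C Γ τ w (t m0) (t m) := by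
    by_contra hcon
    push Not at hcon
    obtain ⟨ψ, hψ⟩ := bad_seq (P := fun a b => ¬ Rel C Γ τ w (t a) (t b)) hcon
    obtain ⟨m, m', hne, hrel⟩ := hret w hw (fun i => t (ψ i))
    rcases lt_or_gt_of_ne (fun e => hne (Fin.ext e) : (m : ℕ) ≠ (m' : ℕ)) with h1 | h1
    · exact hψ _ _ h1 hrel
    · exact hψ _ _ h1 (rel_symm hCC hrel)
  obtain ⟨m0, hm0⟩ := hfreq
  obtain ⟨φ, hφ, hrel⟩ := extraction_of_frequently_atTop hm0
  choose γ hγ s hs him h1 h2 using hrel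
  obtain ⟨q, hq⟩ : ∃ q : ℕ → V n, q = fun m => s m • act (γ m) (xt w (t (φ m))) := ⟨_, rfl⟩
  have hqcl : ∀ m, q m ∈ closure C := by
    intro m
    rw [hq]
    exact (hCC.sact_cl_iff (hγ m) (hs m)).2 (subset_closure (hxC _))
  obtain ⟨B, hB, hnorm⟩ := hCC.toPCone.normal
  have hbd : Bornology.IsBounded (Metric.closedBall (0 : V n) (B * ‖(4 : ℝ) • xt w (t m0)‖)) :=
    Metric.isBounded_closedBall
  obtain ⟨p, -, θ, hθ, hlim⟩ := tendsto_subseq_of_bounded hbd (x := q) (fun m => by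
    rw [mem_closedBall_zero_iff]
    refine hnorm _ _ (hqcl m) ?_
    rw [hq]
    exact h2 m)
  have hpcl : (4 : ℝ) • p - xt w (t m0) ∈ closure C := by
    refine isClosed_closure.mem_of_tendsto ((hlim.const_smul (4 : ℝ)).sub_const (xt w (t m0)))
      (Eventually.of_forall fun m => ?_)
    rw [hq]
    exact h1 (θ m)
  have hp4 : (4 : ℝ) • p ∈ C := by
    have h3 := hCC.toPCone.cl_add' hpcl (hxC (t m0))
    rwa [sub_add_cancel] at h3
  have hp : p ∈ C := by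
    have h3 := hCC.smul _ hp4 (1 / 4) (by norm_num)
    rwa [smul_smul, show (1 / 4 : ℝ) * 4 = 1 by norm_num, one_smul] at h3
  refine ⟨fun m => φ (θ m), fun m => γ (θ m), fun m => s (θ m), p, hφ.comp hθ,
    fun m => hγ (θ m), fun m => hs (θ m), fun m => him (θ m), hp, ?_⟩
  refine hlim.congr fun m => ?_
  rw [hq]
  rfl

end Pool.Agent.NTW.H75
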